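import Pool.Agent.Lib.MP_0a5adf_nt.TP.Interfaces

/-!
Project TAO+, module OSCL2 (helper69): the oscillation is bounded by the Fourier coefficients
prime to `3`.
-/

set_option autoImplicit false

namespace Pool.Agent.Lib.MP_0a5adf_nt.TP.H69

open Finset

theorem parseval (N : ℕ) [NeZero N] (h : ZMod N → ℂ) :
    ∑ ξ : ZMod N, ‖∑ X : ZMod N, h X * ZMod.stdAddChar (ξ * X)‖ ^ 2 =
      N * ∑ X : ZMod N, ‖h X‖ ^ 2 := by
  classical
  have key : ((∑ ξ : ZMod N, ‖∑ X : ZMod N, h X * ZMod.stdAddChar (ξ * X)‖ ^ 2 : ℝ) : ℂ) =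
      ((N * ∑ X : ZMod N, ‖h X‖ ^ 2 : ℝ) : ℂ) := by
    push_cast
    have h1 : ∀ ξ : ZMod N,
        ((‖∑ X : ZMod N, h X * ZMod.stdAddChar (ξ * X)‖ : ℂ)) ^ 2 =
          ∑ X : ZMod N, ∑ Y : ZMod N, h X * (starRingEnd ℂ) (h Y) *
            ZMod.stdAddChar (ξ * (X - Y)) := by
      intro ξ
      rw [← Complex.mul_conj', map_sum, Finset.sum_mul_sum]
      refine Finset.sum_congr rfl fun X _ => Finset.sum_congr rfl fun Y _ => ?_
      rw [map_mul (starRingEnd ℂ), ← AddChar.map_neg_eq_conj, mul_sub, sub_eq_add_neg, AddChar.map_add_eq_mul]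
      ring
    simp_rw [h1]
    rw [Finset.sum_comm, Finset.mul_sum]
    refine Finset.sum_congr rfl fun X _ => ?_
    rw [Finset.sum_comm]
    have h2 : ∀ Y : ZMod N, ∑ ξ : ZMod N, h X * (starRingEnd ℂ) (h Y) *
        ZMod.stdAddChar (ξ * (X - Y)) = if Y = X then h X * (starRingEnd ℂ) (h Y) * N else 0 := by
      intro Y
      rw [← Finset.mul_sum, AddChar.sum_mulShift _ (ZMod.isPrimitive_stdAddChar N)]
      by_cases hY : Y = X
      · subst hY
        simp
      · have : X - Y ≠ 0 := sub_ne_zero.mpr (Ne.symm hY)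
        simp [hY, this]
    simp_rw [h2]
    rw [Finset.sum_ite_eq' Finset.univ X]
    simp only [Finset.mem_univ, if_true]
    rw [Complex.mul_conj']
    ring
  exact_mod_cast key

/-- Fourier transform of a translate. -/
theorem transl (N : ℕ) [NeZero N] (h : ZMod N → ℂ) (t ξ : ZMod N) :
    ∑ X : ZMod N, h (X + t) * ZMod.stdAddChar (ξ * X) =
      ZMod.stdAddChar (-(ξ * t)) * ∑ X : ZMod N, h X * ZMod.stdAddChar (ξ * X) := by
  rw [Finset.mul_sum]
  refine Fintype.sum_equiv (Equiv.addRight t) _ _ fun X => ?_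
  have : ξ * X = -(ξ * t) + ξ * (X + t) := by ring
  simp only [Equiv.coe_addRight]
  rw [this, AddChar.map_add_eq_mul]
  ring

theorem oscAux (m N : ℕ) [NeZero N] (hN : N = 3 ^ (m + 1)) (g : ZMod N → ℝ) :
    ∑ X : ZMod N, |g X - (g X + g (X + 3 ^ m) + g (X + 2 * 3 ^ m)) / 3| ≤
      √(∑ ξ ∈ univ.filter (fun ξ : ZMod N => ¬ 3 ∣ ξ.val),
        ‖∑ X : ZMod N, (g X : ℂ) * ZMod.stdAddChar (ξ * X)‖ ^ 2) := by
  set u : ZMod N := 3 ^ m with hu
  set h : ZMod N → ℝ := fun X => g X - (g X + g (X + u) + g (X + 2 * u)) / 3 with hh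
  have h3u : 3 * u = 0 := by
    have : (3 : ZMod N) * u = ((3 ^ (m + 1) : ℕ) : ZMod N) := by
      rw [hu]; push_cast; ring
    rw [this, ← hN]
    exact ZMod.natCast_self N
  -- the Fourier transform of `h`
  have hft : ∀ ξ : ZMod N, ∑ X : ZMod N, (h X : ℂ) * ZMod.stdAddChar (ξ * X) =
      (if 3 ∣ ξ.val then 0 else ∑ X : ZMod N, (g X : ℂ) * ZMod.stdAddChar (ξ * X)) := by
    intro ξ
    set w : ℂ := ZMod.stdAddChar (-(ξ * u)) with hw
    have hw2 : (ZMod.stdAddChar (-(ξ * (2 * u))) : ℂ) = w ^ 2 := by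
      rw [hw, pow_two, ← AddChar.map_add_eq_mul]
      congr 1; ring
    have hw3 : w ^ 3 = 1 := by
      rw [hw, ← AddChar.map_nsmul_eq_pow]
      have : (3 : ℕ) • (-(ξ * u)) = 0 := by
        rw [nsmul_eq_mul]
        have : ((3 : ℕ) : ZMod N) * -(ξ * u) = -ξ * (3 * u) := by push_cast; ring
        rw [this, h3u, mul_zero]
      rw [this, AddChar.map_zero_eq_one]
    have hexp : ∑ X : ZMod N, (h X : ℂ) * ZMod.stdAddChar (ξ * X) =
        (1 - (1 + w + w ^ 2) / 3) * ∑ X : ZMod N, (g X : ℂ) * ZMod.stdAddChar (ξ * X) := by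
      have e1 := transl N (fun X => (g X : ℂ)) u ξ
      have e2 := transl N (fun X => (g X : ℂ)) (2 * u) ξ
      rw [← hw] at e1
      rw [hw2] at e2
      have : ∑ X : ZMod N, (h X : ℂ) * ZMod.stdAddChar (ξ * X) =
          ∑ X : ZMod N, (g X : ℂ) * ZMod.stdAddChar (ξ * X)
          - (∑ X : ZMod N, (g X : ℂ) * ZMod.stdAddChar (ξ * X)
            + ∑ X : ZMod N, (g (X + u) : ℂ) * ZMod.stdAddChar (ξ * X)
            + ∑ X : ZMod N, (g (X + 2 * u) : ℂ) * ZMod.stdAddChar (ξ * X)) / 3 := by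
        rw [← Finset.sum_add_distrib, ← Finset.sum_add_distrib, Finset.sum_div,
          ← Finset.sum_sub_distrib]
        refine Finset.sum_congr rfl fun X _ => ?_
        simp only [hh]
        push_cast
        ring
      rw [this, e1, e2]
      ring
    rw [hexp]
    split_ifs with hdiv
    · have hz : ξ * u = 0 := by
        obtain ⟨k, hk⟩ := hdiv
        have : ξ = ((3 * k : ℕ) : ZMod N) := by
          rw [← hk, ZMod.natCast_zmod_val]
        rw [this]
        push_cast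
        calc (3 : ZMod N) * k * u = k * (3 * u) := by ring
          _ = 0 := by rw [h3u, mul_zero]
      have : w = 1 := by rw [hw, hz, neg_zero, AddChar.map_zero_eq_one]
      rw [this]
      ring
    · have hne : ξ * u ≠ 0 := by
        intro h0
        apply hdiv
        have : ((ξ.val * 3 ^ m : ℕ) : ZMod N) = 0 := by
          push_cast
          rw [ZMod.natCast_zmod_val, ← hu, h0]
        rw [ZMod.natCast_eq_zero_iff] at this
        have h3 : 3 * 3 ^ m ∣ ξ.val * 3 ^ m :=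
          (dvd_of_eq (by rw [hN, pow_succ, mul_comm])).trans this
        exact (Nat.mul_dvd_mul_iff_right (by positivity)).mp h3
      have hw1 : w ≠ 1 := by
        intro h1
        rw [hw, ← AddChar.map_zero_eq_one (ZMod.stdAddChar (N := N))] at h1
        have := ZMod.injective_stdAddChar h1
        exact hne (neg_eq_zero.mp this)
      have hfac : (w - 1) * (1 + w + w ^ 2) = 0 := by
        have : (w - 1) * (1 + w + w ^ 2) = w ^ 3 - 1 := by ring
        rw [this, hw3, sub_self]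
      have := (mul_eq_zero.mp hfac).resolve_left (sub_ne_zero.mpr hw1)
      rw [this]
      ring
  -- Parseval
  have hpar := parseval N (fun X => (h X : ℂ))
  have hsum : ∑ ξ : ZMod N, ‖∑ X : ZMod N, (h X : ℂ) * ZMod.stdAddChar (ξ * X)‖ ^ 2 =
      ∑ ξ ∈ univ.filter (fun ξ : ZMod N => ¬ 3 ∣ ξ.val),
        ‖∑ X : ZMod N, (g X : ℂ) * ZMod.stdAddChar (ξ * X)‖ ^ 2 := by
    rw [Finset.sum_filter]
    refine Finset.sum_congr rfl fun ξ _ => ?_
    rw [hft ξ]
    by_cases hdiv : 3 ∣ ξ.val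
    · simp [hdiv]
    · simp [hdiv]
  change ∑ X : ZMod N, |h X| ≤ _
  apply Real.le_sqrt_of_sq_le
  have hcs : (∑ X : ZMod N, |h X|) ^ 2 ≤ N * ∑ X : ZMod N, |h X| ^ 2 := by
    have := sq_sum_le_card_mul_sum_sq (s := (univ : Finset (ZMod N))) (f := fun X => |h X|)
    simpa [Finset.card_univ, ZMod.card] using this
  refine hcs.trans (le_of_eq ?_)
  rw [← hsum, hpar]
  simp

theorem oscL2 : OscL2Statement := by
  intro n g hn
  obtain ⟨m, rfl⟩ : ∃ m, n = m + 1 := ⟨n - 1, by omega⟩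
  exact oscAux m _ rfl g

end Pool.Agent.Lib.MP_0a5adf_nt.TP.H69
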